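import Mathlib
import Pool.Agent.Lib.MP_d17a30_nt.Final

/-!
For every prime `p ≡ 3 (mod 4)` the determinant of the matrix
`[x + ((j-k)/p)]`, `1 ≤ j, k ≤ (p-1)/2`, is equal to `x` in `ℤ[x]`.
-/

namespace Pool.Agent.Results.MP_d17a30_nt.DetEqX

open Polynomial

/-- The shift by one from `Fin n` to `{1, ..., n}`. -/
def shiftEquiv (n : ℕ) : Fin n ≃ ↥(Finset.Icc 1 n) where
  toFun i := ⟨(i : ℕ) + 1, by rw [Finset.mem_Icc]; exact ⟨by omega, i.isLt⟩⟩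
  invFun j := ⟨(j : ℕ) - 1, by
    have := Finset.mem_Icc.mp j.2
    omega⟩
  left_inv i := by ext; simp
  right_inv j := by
    have := Finset.mem_Icc.mp j.2
    ext
    change (j : ℕ) - 1 + 1 = j
    omega

theorem result (p : ℕ) [Fact p.Prime] (hp : p % 4 = 3) :
    Matrix.det (Matrix.of fun j k : ↥(Finset.Icc 1 ((p - 1) / 2)) =>
      (X + C (legendreSym p (((j : ℕ) : ℤ) - ((k : ℕ) : ℤ))) : ℤ[X])) = X := by
  rw [← Matrix.det_submatrix_equiv_self (shiftEquiv ((p - 1) / 2))]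
  refine Eq.trans ?_ (Pool.Agent.Lib.MP_d17a30_nt.main_fin (p := p) hp ((p - 1) / 2) rfl)
  congr 1
  ext1 j k
  simp only [Matrix.submatrix_apply, Matrix.of_apply, shiftEquiv, Equiv.coe_fn_mk]
  have h : (((j : ℕ) + 1 : ℕ) : ℤ) - (((k : ℕ) + 1 : ℕ) : ℤ) = ((j : ℕ) : ℤ) - ((k : ℕ) : ℤ) := by
    push_cast
    ring
  rw [h]

end Pool.Agent.Results.MP_d17a30_nt.DetEqX
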